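import Pool.Agent.Q122.Anti.Defs

set_option autoImplicit false

/-!
# The parameter `τ` and the upper bound `β`
-/

namespace Q122.Anti

/-- `v` is a leaf: it has exactly one neighbour. -/
def IsLeaf {V : Type} (G : SimpleGraph V) (v : V) : Prop := (G.neighborSet v).ncard = 1

open Classical in
/-- `τ(G)`: `-∞` if `G` is not antimagic, and otherwise the largest `t` such that `G ∪ t'P₃` is
antimagic for all `0 ≤ t' ≤ t`. -/
noncomputable def tau {V : Type} (G : SimpleGraph V) : WithBot ℤ :=
  if IsAntimagic G then (((sSup (tauSet G) : ℕ) : ℤ) : WithBot ℤ) else ⊥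

/-- The number of internal edges: the edges both ends of which are not leaves. -/
noncomputable def internalCount {V : Type} (G : SimpleGraph V) : ℕ :=
  {e ∈ G.edgeSet | ∀ v ∈ e, ¬ IsLeaf G v}.ncard

/-- The number of components isomorphic to `P₃`. -/
noncomputable def p3Count {V : Type} (G : SimpleGraph V) : ℕ :=
  {c : G.ConnectedComponent | Nonempty (c.toSimpleGraph ≃g SimpleGraph.pathGraph 3)}.ncard

/-- `β(G) = ⌊min {(3 + 2√2)(m - n) + (1 + √2)(m + 1/2), 2m + 5(k - t') + 1}⌋`. -/
noncomputable def beta {V : Type} (G : SimpleGraph V) : ℤ :=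
  ⌊min ((3 + 2 * √2) * ((G.edgeSet.ncard : ℝ) - Nat.card V) +
      (1 + √2) * ((G.edgeSet.ncard : ℝ) + 1 / 2))
    (2 * (G.edgeSet.ncard : ℝ) + 5 * ((internalCount G : ℝ) - p3Count G) + 1)⌋

end Q122.Anti
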