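import Pool.Agent.Q122.Anti.Forest

set_option autoImplicit false

/-!
# Antimagic labellings from lists
-/

namespace Q122.Anti

open Finset

lemma bijOn_of_inj {E : Type} [Fintype E] (g : E → ℕ) (hinj : Function.Injective g)
    (hr : ∀ x, 1 ≤ g x ∧ g x ≤ Fintype.card E) :
    Set.BijOn g Set.univ (Set.Icc 1 (Fintype.card E)) := by
  classical
  refine ⟨fun x _ => hr x, hinj.injOn, ?_⟩
  intro i hi
  have h1 : univ.image g = Icc 1 (Fintype.card E) := by
    refine eq_of_subset_of_card_le ?_ ?_
    · intro y hy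
      obtain ⟨x, -, rfl⟩ := mem_image.1 hy
      exact mem_Icc.2 (hr x)
    · rw [Nat.card_Icc, card_image_of_injective _ hinj, card_univ]
      omega
  have h2 : i ∈ univ.image g := by
    rw [h1]
    exact mem_Icc.2 hi
  obtain ⟨x, -, hx⟩ := mem_image.1 h2
  exact ⟨x, Set.mem_univ x, hx⟩

section

variable {V W L C K L' C' K' : Type} [Fintype L] [Fintype L']
  {G : SimpleGraph V} {H : SimpleGraph W} (P : Pres G L C K) (Q : Pres H L' C' K')

lemma cs_sum_inl (g : L ⊕ L' → ℕ) (c : C) :
    (P.sum Q).cs g (Sum.inl c) = P.cs (fun l => g (Sum.inl l)) c := by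
  classical
  unfold Pres.cs
  rw [sum_filter, Fintype.sum_sum_type, sum_filter]
  have h1 : ∀ l : L, ((P.sum Q).att (Sum.inl l) = Sum.inl c) ↔ P.att l = c := by
    intro l
    simp [Pres.sum]
  have h2 : ∀ l : L', ¬ ((P.sum Q).att (Sum.inr l) = Sum.inl c) := by
    intro l
    simp [Pres.sum]
  simp only [h1, h2, if_false, sum_const_zero, add_zero]

lemma cs_sum_inr (g : L ⊕ L' → ℕ) (c : C') :
    (P.sum Q).cs g (Sum.inr c) = Q.cs (fun l => g (Sum.inr l)) c := by
  classical
  unfold Pres.cs
  rw [sum_filter, Fintype.sum_sum_type, sum_filter]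
  have h1 : ∀ l : L', ((P.sum Q).att (Sum.inr l) = Sum.inr c) ↔ Q.att l = c := by
    intro l
    simp [Pres.sum]
  have h2 : ∀ l : L, ¬ ((P.sum Q).att (Sum.inl l) = Sum.inr c) := by
    intro l
    simp [Pres.sum]
  simp only [h1, h2, if_false, sum_const_zero, zero_add]

end

lemma cs_star (n : ℕ) (g : Fin n → ℕ) (c : Fin 1) : (starPres n).cs g c = ∑ j, g j := by
  unfold Pres.cs
  refine sum_congr ?_ fun _ _ => rfl
  ext l
  simp only [mem_filter, mem_univ, true_and, iff_true]
  exact Subsingleton.elim _ _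

lemma cs_copies (t : ℕ) (g : Fin t × Bool → ℕ) (i : Fin t) :
    (copiesPres t).cs g i = g (i, true) + g (i, false) := by
  rw [← sum_pair (f := g) (a := (i, true)) (b := (i, false)) (by simp)]
  unfold Pres.cs
  refine sum_congr ?_ fun _ _ => rfl
  ext ⟨j, b⟩
  simp only [mem_filter, mem_univ, true_and, mem_insert, mem_singleton, Prod.mk.injEq]
  have : (copiesPres t).att (j, b) = j := rfl
  rw [this]
  cases b <;> simp

lemma att_star {n : ℕ} (hn : 0 < n) : Function.Surjective (starPres n).att := fun _ =>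
  ⟨⟨0, hn⟩, Subsingleton.elim _ _⟩

lemma att_copies (t : ℕ) : Function.Surjective (copiesPres t).att := fun i => ⟨(i, true), rfl⟩

lemma att_sum {V W L C K L' C' K' : Type} {G : SimpleGraph V} {H : SimpleGraph W}
    (P : Pres G L C K) (Q : Pres H L' C' K') (hP : Function.Surjective P.att)
    (hQ : Function.Surjective Q.att) : Function.Surjective (P.sum Q).att :=
  Function.Surjective.sumMap hP hQ

/-- sum of consecutive entries -/
def seg (F : List ℕ) (k n : ℕ) : ℕ := ((List.range n).map fun j => F.getD (k + j) 0).sum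

lemma seg_eq (F : List ℕ) (k n : ℕ) : seg F k n = ∑ j : Fin n, F.getD (k + j) 0 := by
  unfold seg
  rw [Finset.sum_fin_eq_sum_range]
  rw [← List.sum_toFinset _ (List.nodup_range (n := n))]
  have : (List.range n).toFinset = range n := by ext; simp
  rw [this]
  refine sum_congr rfl fun j hj => ?_
  rw [dif_pos (mem_range.1 hj)]

/-- the labelling encoded by `F` is good for one star -/
def ok1 (n t : ℕ) (F : List ℕ) : Prop :=
  F.length = n + 2 * t ∧ (∀ x ∈ F, 1 ≤ x ∧ x ≤ n + 2 * t) ∧ F.Nodup ∧ n + 2 * t < seg F 0 n ∧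
    (∀ i < t, n + 2 * t < F.getD (n + i) 0 + F.getD (n + t + i) 0 ∧
      F.getD (n + i) 0 + F.getD (n + t + i) 0 ≠ seg F 0 n) ∧
    ∀ i < t, ∀ j < i, F.getD (n + i) 0 + F.getD (n + t + i) 0 ≠
      F.getD (n + j) 0 + F.getD (n + t + j) 0

lemma getD_inj {F : List ℕ} (hF : F.Nodup) {i j : ℕ} (hi : i < F.length) (hj : j < F.length)
    (h : F.getD i 0 = F.getD j 0) : i = j := by
  rw [List.getD_eq_getElem _ _ hi, List.getD_eq_getElem _ _ hj] at h
  exact (hF.getElem_inj_iff).1 h

lemma construct1 {n t : ℕ} (hn : 0 < n) {F : List ℕ} (h : ok1 n t F) :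
    IsAntimagic (addP3 (star n) t) := by
  obtain ⟨h1, h2, h3, h4, h5, h6⟩ := h
  set P := (starPres n).sum (copiesPres t) with hP
  have hatt : Function.Surjective P.att := att_sum _ _ (att_star hn) (att_copies t)
  refine (P.forest_iff hatt).2 ?_
  let idx : Fin n ⊕ Fin t × Bool → ℕ :=
    Sum.elim (fun j => (j : ℕ)) fun p => cond p.2 (n + (p.1 : ℕ)) (n + t + (p.1 : ℕ))
  have hidx : ∀ x, idx x < F.length := by
    rintro (j | ⟨i, b⟩)
    · have := j.2
      simp only [idx, Sum.elim_inl]
      omega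
    · have := i.2
      cases b <;> simp only [idx, Sum.elim_inr, cond_true, cond_false] <;> omega
  have hidxi : Function.Injective idx := by
    rintro (j | ⟨i, b⟩) (j' | ⟨i', b'⟩) hh
    · simp only [idx, Sum.elim_inl] at hh
      rw [Fin.ext hh]
    · have := j.2
      cases b' <;> simp only [idx, Sum.elim_inl, Sum.elim_inr, cond_true, cond_false] at hh <;> omega
    · have := j'.2
      cases b <;> simp only [idx, Sum.elim_inl, Sum.elim_inr, cond_true, cond_false] at hh <;> omega
    · have a1 := i.2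
      have a2 := i'.2
      cases b <;> cases b' <;> simp only [idx, Sum.elim_inr, cond_true, cond_false] at hh
      · have : i = i' := Fin.ext (by omega)
        rw [this]
      · omega
      · omega
      · have : i = i' := Fin.ext (by omega)
        rw [this]
  have hcard : Fintype.card (Fin n ⊕ Fin t × Bool) = n + 2 * t := by
    simp
    ring
  let g : Fin n ⊕ Fin t × Bool → ℕ := fun x => F.getD (idx x) 0
  have hcs1 : ∀ c, P.cs g (Sum.inl c) = seg F 0 n := by
    intro c
    rw [hP, cs_sum_inl, cs_star, seg_eq]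
    refine sum_congr rfl fun j _ => ?_
    simp [g, idx]
  have hcs2 : ∀ i : Fin t, P.cs g (Sum.inr i) = F.getD (n + i) 0 + F.getD (n + t + i) 0 := by
    intro i
    rw [hP, cs_sum_inr, cs_copies]
    rfl
  refine ⟨g, ?_, ?_, ?_⟩
  · refine bijOn_of_inj g ?_ ?_
    · intro x y hxy
      exact hidxi (getD_inj h3 (hidx x) (hidx y) hxy)
    · intro x
      rw [hcard]
      refine h2 _ ?_
      show F.getD (idx x) 0 ∈ F
      rw [List.getD_eq_getElem _ _ (hidx x)]
      exact List.getElem_mem _
  · rintro (c | i) (c' | i') hh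
    · rw [Subsingleton.elim c c']
    · rw [hcs1, hcs2] at hh
      exact absurd hh.symm (h5 i' i'.2).2
    · rw [hcs1, hcs2] at hh
      exact absurd hh (h5 i i.2).2
    · rw [hcs2, hcs2] at hh
      rcases lt_trichotomy (i : ℕ) (i' : ℕ) with hlt | heq | hgt
      · exact absurd hh.symm (h6 i' i'.2 i hlt)
      · rw [Fin.ext heq]
      · exact absurd hh (h6 i i.2 i' hgt)
  · rintro (c | i)
    · rw [hcs1, hcard]
      exact h4
    · rw [hcs2, hcard]
      exact (h5 i i.2).1

/-- the labelling encoded by `F` is good for two stars -/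
def ok2 (a b t : ℕ) (F : List ℕ) : Prop :=
  F.length = a + b + 2 * t ∧ (∀ x ∈ F, 1 ≤ x ∧ x ≤ a + b + 2 * t) ∧ F.Nodup ∧
    a + b + 2 * t < seg F 0 a ∧ a + b + 2 * t < seg F a b ∧ seg F 0 a ≠ seg F a b ∧
    (∀ i < t, a + b + 2 * t < F.getD (a + b + i) 0 + F.getD (a + b + t + i) 0 ∧
      F.getD (a + b + i) 0 + F.getD (a + b + t + i) 0 ≠ seg F 0 a ∧
      F.getD (a + b + i) 0 + F.getD (a + b + t + i) 0 ≠ seg F a b) ∧
    ∀ i < t, ∀ j < i, F.getD (a + b + i) 0 + F.getD (a + b + t + i) 0 ≠
      F.getD (a + b + j) 0 + F.getD (a + b + t + j) 0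

lemma construct2 {a b t : ℕ} (ha : 0 < a) (hb : 0 < b) {F : List ℕ} (h : ok2 a b t F) :
    IsAntimagic (addP3 (star a ⊕g star b) t) := by
  obtain ⟨h1, h2, h3, h4, h4', h4'', h5, h6⟩ := h
  set P := ((starPres a).sum (starPres b)).sum (copiesPres t) with hP
  have hatt : Function.Surjective P.att :=
    att_sum _ _ (att_sum _ _ (att_star ha) (att_star hb)) (att_copies t)
  refine (P.forest_iff hatt).2 ?_
  let idx : (Fin a ⊕ Fin b) ⊕ Fin t × Bool → ℕ :=
    Sum.elim (Sum.elim (fun j => (j : ℕ)) fun j => a + (j : ℕ))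
      fun p => cond p.2 (a + b + (p.1 : ℕ)) (a + b + t + (p.1 : ℕ))
  have hidx : ∀ x, idx x < F.length := by
    rintro ((j | j) | ⟨i, b⟩)
    · have := j.2
      simp only [idx, Sum.elim_inl]
      omega
    · have := j.2
      simp only [idx, Sum.elim_inl, Sum.elim_inr]
      omega
    · have := i.2
      cases b <;> simp only [idx, Sum.elim_inr, cond_true, cond_false] <;> omega
  have hidxi : Function.Injective idx := by
    rintro ((j | j) | ⟨i, b⟩) ((j' | j') | ⟨i', b'⟩) hh
    · simp only [idx, Sum.elim_inl] at hh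
      rw [Fin.ext hh]
    · have := j.2
      simp only [idx, Sum.elim_inl, Sum.elim_inr] at hh
      omega
    · have := j.2
      cases b' <;> simp only [idx, Sum.elim_inl, Sum.elim_inr, cond_true, cond_false] at hh <;> omega
    · have := j'.2
      simp only [idx, Sum.elim_inl, Sum.elim_inr] at hh
      omega
    · simp only [idx, Sum.elim_inl, Sum.elim_inr] at hh
      have : j = j' := Fin.ext (by omega)
      rw [this]
    · have := j.2
      cases b' <;> simp only [idx, Sum.elim_inl, Sum.elim_inr, cond_true, cond_false] at hh <;> omega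
    · have := j'.2
      cases b <;> simp only [idx, Sum.elim_inl, Sum.elim_inr, cond_true, cond_false] at hh <;> omega
    · have := j'.2
      cases b <;> simp only [idx, Sum.elim_inl, Sum.elim_inr, cond_true, cond_false] at hh <;> omega
    · have a1 := i.2
      have a2 := i'.2
      cases b <;> cases b' <;> simp only [idx, Sum.elim_inr, cond_true, cond_false] at hh
      · have : i = i' := Fin.ext (by omega)
        rw [this]
      · omega
      · omega
      · have : i = i' := Fin.ext (by omega)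
        rw [this]
  have hcard : Fintype.card ((Fin a ⊕ Fin b) ⊕ Fin t × Bool) = a + b + 2 * t := by
    simp
    ring
  let g : (Fin a ⊕ Fin b) ⊕ Fin t × Bool → ℕ := fun x => F.getD (idx x) 0
  have hcs1 : ∀ c, P.cs g (Sum.inl (Sum.inl c)) = seg F 0 a := by
    intro c
    rw [hP, cs_sum_inl, cs_sum_inl, cs_star, seg_eq]
    refine sum_congr rfl fun j _ => ?_
    simp [g, idx]
  have hcs1' : ∀ c, P.cs g (Sum.inl (Sum.inr c)) = seg F a b := by
    intro c
    rw [hP, cs_sum_inl, cs_sum_inr, cs_star, seg_eq]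
    refine sum_congr rfl fun j _ => ?_
    simp [g, idx]
  have hcs2 : ∀ i : Fin t, P.cs g (Sum.inr i) =
      F.getD (a + b + i) 0 + F.getD (a + b + t + i) 0 := by
    intro i
    rw [hP, cs_sum_inr, cs_copies]
    rfl
  refine ⟨g, ?_, ?_, ?_⟩
  · refine bijOn_of_inj g ?_ ?_
    · intro x y hxy
      exact hidxi (getD_inj h3 (hidx x) (hidx y) hxy)
    · intro x
      rw [hcard]
      refine h2 _ ?_
      show F.getD (idx x) 0 ∈ F
      rw [List.getD_eq_getElem _ _ (hidx x)]
      exact List.getElem_mem _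
  · rintro ((c | c) | i) ((c' | c') | i') hh
    · rw [Subsingleton.elim c c']
    · rw [hcs1, hcs1'] at hh
      exact absurd hh h4''
    · rw [hcs1, hcs2] at hh
      exact absurd hh.symm (h5 i' i'.2).2.1
    · rw [hcs1, hcs1'] at hh
      exact absurd hh.symm h4''
    · rw [Subsingleton.elim c c']
    · rw [hcs1', hcs2] at hh
      exact absurd hh.symm (h5 i' i'.2).2.2
    · rw [hcs1, hcs2] at hh
      exact absurd hh (h5 i i.2).2.1
    · rw [hcs1', hcs2] at hh
      exact absurd hh (h5 i i.2).2.2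
    · rw [hcs2, hcs2] at hh
      rcases lt_trichotomy (i : ℕ) (i' : ℕ) with hlt | heq | hgt
      · exact absurd hh.symm (h6 i' i'.2 i hlt)
      · rw [Fin.ext heq]
      · exact absurd hh (h6 i i.2 i' hgt)
  · rintro ((c | c) | i)
    · rw [hcs1, hcard]
      exact h4
    · rw [hcs1', hcard]
      exact h4'
    · rw [hcs2, hcard]
      exact (h5 i i.2).1

end Q122.Anti
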