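import Mathlib

set_option autoImplicit false

/-!
# Antimagic labellings and the parameter `τ`
-/

namespace Q122.Anti

/-- A graph with `m` edges is antimagic if its edges can be labelled bijectively by `1, …, m` so
that the sums of the labels of the edges at the vertices are pairwise distinct. -/
def IsAntimagic {V : Type} (G : SimpleGraph V) : Prop :=
  ∃ f : Sym2 V → ℕ, Set.BijOn f G.edgeSet (Set.Icc 1 G.edgeSet.ncard) ∧
    Function.Injective fun v : V => ∑ᶠ e ∈ G.incidenceSet v, f e

/-- The disjoint union of `t` copies of `H`. -/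
def copies {V : Type} (t : ℕ) (H : SimpleGraph V) : SimpleGraph (Fin t × V) where
  Adj p q := p.1 = q.1 ∧ H.Adj p.2 q.2
  symm := ⟨fun _ _ h => ⟨h.1.symm, h.2.symm⟩⟩
  loopless := ⟨fun _ h => h.2.ne rfl⟩

/-- The graph `G ∪ tP₃`. -/
def addP3 {V : Type} (G : SimpleGraph V) (t : ℕ) : SimpleGraph (V ⊕ Fin t × Fin 3) :=
  G ⊕g copies t (SimpleGraph.pathGraph 3)

/-- The set of the `t` such that `G ∪ t'P₃` is antimagic for all `0 ≤ t' ≤ t`. The parameter `τ(G)`
of an antimagic graph is the greatest element of this set. -/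
def tauSet {V : Type} (G : SimpleGraph V) : Set ℕ :=
  {t | ∀ t' ≤ t, IsAntimagic (addP3 G t')}

end Q122.Anti
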