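import Pool.Agent.Q122.Anti.BetaDefs
import Pool.Agent.Q122.Anti.Construct

set_option autoImplicit false

/-!
# The double star `S_{1,17}`
-/

namespace Q122.Anti

open Finset

/-- The double star: two adjacent vertices, one with `a` and the other with `b` leaves. -/
def doubleStar (a b : ℕ) : SimpleGraph (Bool ⊕ (Fin a ⊕ Fin b)) where
  Adj u v := match u, v with
    | .inl p, .inl q => p ≠ q
    | .inl p, .inr (.inl _) => p = false
    | .inl p, .inr (.inr _) => p = true
    | .inr (.inl _), .inl q => q = false
    | .inr (.inr _), .inl q => q = true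
    | .inr _, .inr _ => False
  symm := ⟨by
    rintro (p | (i | i)) (q | (j | j)) h
    · exact fun h' => h h'.symm
    all_goals exact h⟩
  loopless := ⟨by
    rintro (p | (i | i)) h
    · exact h rfl
    all_goals exact h.elim⟩

/-- presentation of the double star -/
def dsPres (a b : ℕ) : Pres (doubleStar a b) (Fin a ⊕ Fin b) Bool Unit where
  leaf := Sum.inr
  cen := Sum.inl
  att := Sum.elim (fun _ => false) (fun _ => true)
  int _ := s(false, true)
  leaf_inj := Sum.inr_injective
  cen_inj := Sum.inl_injective
  ne l c := by simp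
  cover v := by
    rcases v with v | v
    · exact Or.inr ⟨v, rfl⟩
    · exact Or.inl ⟨v, rfl⟩
  int_inj k k' _ := Subsingleton.elim _ _
  edges e := by
    induction e with
    | _ x y =>
      rw [SimpleGraph.mem_edgeSet]
      constructor
      · intro h
        rcases x with p | (i | i) <;> rcases y with q | (j | j)
        · right
          refine ⟨(), ?_⟩
          have h' : p ≠ q := h
          cases p <;> cases q
          · exact absurd rfl h'
          · rfl
          · exact Sym2.eq_swap
          · exact absurd rfl h'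
        · left
          have h' : p = false := h
          subst h'
          exact ⟨Sum.inl j, Sym2.eq_swap⟩
        · left
          have h' : p = true := h
          subst h'
          exact ⟨Sum.inr j, Sym2.eq_swap⟩
        · left
          have h' : q = false := h
          subst h'
          exact ⟨Sum.inl i, rfl⟩
        · exact h.elim
        · exact h.elim
        · left
          have h' : q = true := h
          subst h'
          exact ⟨Sum.inr i, rfl⟩
        · exact h.elim
        · exact h.elim
      · rintro (⟨l, h⟩ | ⟨k, h⟩)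
        · rw [Sym2.eq_iff] at h
          rcases l with l | l
          · rcases h with ⟨rfl, rfl⟩ | ⟨rfl, rfl⟩
            · exact rfl
            · exact rfl
          · rcases h with ⟨rfl, rfl⟩ | ⟨rfl, rfl⟩
            · exact rfl
            · exact rfl
        · simp only [Sym2.map_mk] at h
          rw [Sym2.eq_iff] at h
          rcases h with ⟨rfl, rfl⟩ | ⟨rfl, rfl⟩
          · exact Bool.false_ne_true
          · exact Bool.false_ne_true.symm

lemma Pres.vs_cen {V L C K : Type} [Fintype L] [Fintype K] {G : SimpleGraph V}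
    (P : Pres G L C K) (c : C) (A : Finset L) (B : Finset K) (hA : ∀ l, l ∈ A ↔ P.att l = c)
    (hB : ∀ k, k ∈ B ↔ c ∈ P.int k) (g : L ⊕ K → ℕ) :
    P.vs g (Sum.inr c) = ∑ l ∈ A, g (Sum.inl l) + ∑ k ∈ B, g (Sum.inr k) := by
  classical
  unfold Pres.vs
  simp only [Sum.elim_inr]
  congr 1
  · refine sum_congr ?_ fun _ _ => rfl
    ext l
    rw [mem_filter, hA]
    simp
  · refine sum_congr ?_ fun _ _ => rfl
    ext k
    rw [mem_filter, hB]
    simp

/-- A counting condition which implies that `S_{1,b} ∪ t P₃` is not antimagic. -/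
theorem not_double (b t M : ℕ) (hM : M = b + 2 * t + 2)
    (h₁ : M * (M + 1) < b * (b + 1) + t * (2 * M + t + 1)) :
    ¬ IsAntimagic (addP3 (doubleStar 1 b) t) := by
  classical
  intro hG
  set P := (dsPres 1 b).sum (copiesPres t) with hP
  obtain ⟨g, hg, hi⟩ := P.antimagic_iff.1 hG
  have hcM : Fintype.card ((Fin 1 ⊕ Fin b) ⊕ Fin t × Bool) + Fintype.card (Unit ⊕ Empty) = M := by
    simp
    omega
  rw [hcM] at hg
  have hT := sum_labels g _ hg
  set x := g (Sum.inr (Sum.inl ())) with hx
  set a := g (Sum.inl (Sum.inl (Sum.inl 0))) with ha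
  -- sums at the non-leaves
  have hA : P.vs g (Sum.inr (Sum.inl false)) = a + x := by
    rw [P.vs_cen (Sum.inl false) {Sum.inl (Sum.inl 0)} {Sum.inl ()} ?_ ?_ g, sum_singleton,
      sum_singleton]
    · intro l
      rw [mem_singleton]
      rcases l with (l | l) | l
      · have : l = 0 := Subsingleton.elim _ _
        subst this
        simp [hP, Pres.sum, dsPres]
      · simp [hP, Pres.sum, dsPres]
      · simp [hP, Pres.sum]
    · intro k
      rw [mem_singleton]
      rcases k with k | k
      · simp [hP, Pres.sum, dsPres]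
      · exact k.elim
  have hp : ∀ i : Fin t, P.vs g (Sum.inr (Sum.inr i)) =
      g (Sum.inl (Sum.inr (i, true))) + g (Sum.inl (Sum.inr (i, false))) := by
    intro i
    rw [P.vs_cen (Sum.inr i) {Sum.inr (i, true), Sum.inr (i, false)} ∅ ?_ ?_ g, sum_empty,
      sum_pair (by simp), add_zero]
    · intro l
      rw [mem_insert, mem_singleton]
      rcases l with (l | l) | ⟨j, b⟩
      · simp [hP, Pres.sum]
      · simp [hP, Pres.sum]
      · simp only [hP, Pres.sum, copiesPres, Sum.map_inr, Sum.inr.injEq, Prod.mk.injEq]
        cases b <;> simp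
    · intro k
      rcases k with k | k
      · simp [hP, Pres.sum, dsPres]
      · exact k.elim
  have hgpos : ∀ y, 1 ≤ g y := fun y => (hg.mapsTo (Set.mem_univ y)).1
  have hginj : Function.Injective g := fun y z h => hg.injOn (Set.mem_univ _) (Set.mem_univ _) h
  -- every sum at a non-leaf is `x` or large
  have hbig : ∀ c, 1 ≤ P.vs g (Sum.inr c) → P.vs g (Sum.inr c) ≠ x →
      M + 1 ≤ P.vs g (Sum.inr c) := by
    intro c h1 hne
    by_contra hcon
    push Not at hcon
    obtain ⟨y, -, hy⟩ := hg.surjOn (⟨h1, by omega⟩ : P.vs g (Sum.inr c) ∈ Set.Icc 1 M)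
    rcases y with l | k
    · have h2 : P.vs g (Sum.inl l) = P.vs g (Sum.inr c) := hy
      exact absurd (hi h2) (by simp)
    · rcases k with k | k
      · exact hne hy.symm
      · exact k.elim
  -- the set of the sums
  obtain ⟨S₀, hS₀mem, hS₀, hS₀sum⟩ : ∃ S₀ : Finset (Bool ⊕ Fin t),
      (∀ c ∈ S₀, c = Sum.inl false ∨ ∃ i, c = Sum.inr i) ∧ S₀.card = t + 1 ∧
      ∀ F : Bool ⊕ Fin t → ℕ, ∑ c ∈ S₀, F c = F (Sum.inl false) + ∑ i, F (Sum.inr i) := by
    refine ⟨(univ.map ⟨Sum.inr, Sum.inr_injective⟩).cons (Sum.inl false) (by simp), ?_, ?_, ?_⟩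
    · intro c hc
      rcases mem_cons.1 hc with rfl | hc
      · exact Or.inl rfl
      · obtain ⟨i, -, rfl⟩ := mem_map.1 hc
        exact Or.inr ⟨i, rfl⟩
    · rw [card_cons, card_map, card_univ, Fintype.card_fin]
    · intro F
      rw [sum_cons, sum_map]
      rfl
  have hvinj : Function.Injective fun c => P.vs g (Sum.inr c) := fun c c' h => by
    have := hi h
    rwa [Sum.inr.injEq] at this
  have hsum : ∑ c ∈ S₀, P.vs g (Sum.inr c) = a + x +
      ∑ i : Fin t, (g (Sum.inl (Sum.inr (i, true))) + g (Sum.inl (Sum.inr (i, false)))) := by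
    rw [hS₀sum (fun c => P.vs g (Sum.inr c)), hA]
    simp only [hp]
  have htot : ∑ y, g y = ∑ c ∈ S₀, P.vs g (Sum.inr c) +
      ∑ j : Fin b, g (Sum.inl (Sum.inl (Sum.inr j))) := by
    rw [hsum, Fintype.sum_sum_type, Fintype.sum_sum_type, Fintype.sum_sum_type,
      Fintype.sum_sum_type, Fintype.sum_prod_type]
    have h1 : ∑ i : Fin 1, g (Sum.inl (Sum.inl (Sum.inl i))) = a := by
      simp [ha]
    have h2 : ∑ i : Unit, g (Sum.inr (Sum.inl i)) = x := by simp [hx]
    have h3 : ∑ i : Empty, g (Sum.inr (Sum.inr i)) = 0 := by simp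
    have h4 : ∀ i : Fin t, ∑ b : Bool, g (Sum.inl (Sum.inr (i, b))) =
        g (Sum.inl (Sum.inr (i, true))) + g (Sum.inl (Sum.inr (i, false))) := by
      intro i
      simp
    rw [h1, h2, h3]
    simp only [h4]
    ring
  have hB : b * (2 * 1 + b) ≤ 2 * ∑ j : Fin b, g (Sum.inl (Sum.inl (Sum.inr j))) + b := by
    have hinj : Function.Injective fun j : Fin b => g (Sum.inl (Sum.inl (Sum.inr j))) := by
      intro j j' h
      have := hginj h
      simpa using this
    have := sum_ge 1 b (univ.image fun j : Fin b => g (Sum.inl (Sum.inl (Sum.inr j))))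
      (by rw [card_image_of_injective _ hinj, card_univ, Fintype.card_fin])
      (by
        intro y hy
        obtain ⟨j, -, rfl⟩ := mem_image.1 hy
        exact hgpos _)
    rwa [sum_image hinj.injOn] at this
  -- lower bound
  set S := S₀.image fun c => P.vs g (Sum.inr c) with hS
  have hScard : S.card = t + 1 := by rw [hS, card_image_of_injective _ hvinj, hS₀]
  have hSsum : ∑ y ∈ S, y = ∑ c ∈ S₀, P.vs g (Sum.inr c) := by
    rw [hS, sum_image hvinj.injOn]
  have hSbig : ∀ y ∈ S.erase x, M + 1 ≤ y := by
    intro y hy
    rw [mem_erase] at hy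
    obtain ⟨c, hc, rfl⟩ := mem_image.1 hy.2
    refine hbig c ?_ hy.1
    rcases hS₀mem c hc with rfl | ⟨i, rfl⟩
    · rw [hA]
      have : 1 ≤ a := hgpos _
      omega
    · rw [hp i]
      have h2 := hgpos (Sum.inl (Sum.inr (i, true)))
      omega
  have hle : ∑ y ∈ S.erase x, y ≤ ∑ y ∈ S, y :=
    sum_le_sum_of_subset (erase_subset _ _)
  have hcard : (S.erase x).card = t ∨ (S.erase x).card = t + 1 := by
    by_cases hxS : x ∈ S
    · left
      rw [card_erase_of_mem hxS, hScard]
      rfl
    · right
      rw [erase_eq_of_notMem hxS, hScard]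
  rw [hSsum] at hle
  generalize ∑ c ∈ S₀, P.vs g (Sum.inr c) = s at *
  generalize ∑ j : Fin b, g (Sum.inl (Sum.inl (Sum.inr j))) = r at *
  generalize ∑ y, g y = T at *
  rcases hcard with hc | hc
  · have h5 := sum_ge (M + 1) t (S.erase x) hc hSbig
    generalize ∑ y ∈ S.erase x, y = u at *
    nlinarith
  · have h5 := sum_ge (M + 1) (t + 1) (S.erase x) hc hSbig
    generalize ∑ y ∈ S.erase x, y = u at *
    nlinarith

lemma double_adj_cen (a b : ℕ) : (doubleStar a b).Adj (Sum.inl false) (Sum.inl true) :=
  Bool.false_ne_true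

lemma double_reach (a b : ℕ) (v : Bool ⊕ (Fin a ⊕ Fin b)) :
    (doubleStar a b).Reachable v (Sum.inl true) := by
  have h0 : (doubleStar a b).Reachable (Sum.inl false) (Sum.inl true) :=
    (double_adj_cen a b).reachable
  rcases v with v | v | v
  · cases v
    · exact h0
    · exact SimpleGraph.Reachable.refl _
  · refine SimpleGraph.Reachable.trans (SimpleGraph.Adj.reachable ?_) h0
    exact (rfl : false = false)
  · refine SimpleGraph.Adj.reachable ?_
    exact (rfl : true = true)

lemma double_preconnected (a b : ℕ) : (doubleStar a b).Preconnected := fun u v =>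
  (double_reach a b u).trans (double_reach a b v).symm

/-- a connected graph has no small components -/
lemma no_component {V : Type} [Fintype V] (G : SimpleGraph V) (hG : G.Preconnected) (n : ℕ)
    (hn : Fintype.card V ≠ n) (c : G.ConnectedComponent) :
    ¬ Nonempty (c.toSimpleGraph ≃g SimpleGraph.pathGraph n) := by
  rintro ⟨e⟩
  apply hn
  have h1 : Nat.card c.supp = n := by
    have h3 := Nat.card_congr e.toEquiv
    rw [Nat.card_fin] at h3
    exact h3
  have h2 : c.supp = Set.univ := by
    ext v
    simp only [Set.mem_univ, iff_true]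
    induction c using SimpleGraph.ConnectedComponent.ind with
    | _ w => exact SimpleGraph.ConnectedComponent.sound (hG v w)
  rw [h2] at h1
  simpa using h1

lemma double_isLeaf (a b : ℕ) (l : Fin a ⊕ Fin b) : IsLeaf (doubleStar a b) (Sum.inr l) := by
  unfold IsLeaf
  rw [Set.ncard_eq_one]
  rcases l with l | l
  · refine ⟨Sum.inl false, ?_⟩
    ext w
    rw [SimpleGraph.mem_neighborSet, Set.mem_singleton_iff]
    constructor
    · intro h
      rcases w with w | w | w
      · have h' : w = false := h
        rw [h']
      · exact h.elim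
      · exact h.elim
    · rintro rfl
      exact (rfl : false = false)
  · refine ⟨Sum.inl true, ?_⟩
    ext w
    rw [SimpleGraph.mem_neighborSet, Set.mem_singleton_iff]
    constructor
    · intro h
      rcases w with w | w | w
      · have h' : w = true := h
        rw [h']
      · exact h.elim
      · exact h.elim
    · rintro rfl
      exact (rfl : true = true)

lemma double_not_isLeaf (c : Bool) : ¬ IsLeaf (doubleStar 1 17) (Sum.inl c) := by
  unfold IsLeaf
  intro h
  rw [Set.ncard_eq_one] at h
  obtain ⟨w, hw⟩ := h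
  cases c
  · have h1 : (Sum.inl true : Bool ⊕ (Fin 1 ⊕ Fin 17)) ∈
        (doubleStar 1 17).neighborSet (Sum.inl false) := Bool.false_ne_true
    have h2 : (Sum.inr (Sum.inl 0) : Bool ⊕ (Fin 1 ⊕ Fin 17)) ∈
        (doubleStar 1 17).neighborSet (Sum.inl false) := (rfl : false = false)
    rw [hw, Set.mem_singleton_iff] at h1 h2
    rw [← h2] at h1
    exact absurd h1 (by simp)
  · have h1 : (Sum.inl false : Bool ⊕ (Fin 1 ⊕ Fin 17)) ∈
        (doubleStar 1 17).neighborSet (Sum.inl true) := Bool.false_ne_true.symm
    have h2 : (Sum.inr (Sum.inr 0) : Bool ⊕ (Fin 1 ⊕ Fin 17)) ∈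
        (doubleStar 1 17).neighborSet (Sum.inl true) := (rfl : true = true)
    rw [hw, Set.mem_singleton_iff] at h1 h2
    rw [← h2] at h1
    exact absurd h1 (by simp)

lemma double_internal : internalCount (doubleStar 1 17) = 1 := by
  unfold internalCount
  rw [Set.ncard_eq_one]
  refine ⟨s(Sum.inl false, Sum.inl true), ?_⟩
  ext e
  rw [Set.mem_singleton_iff]
  induction e with
  | _ x y =>
    constructor
    · rintro ⟨h1, h2⟩
      rw [SimpleGraph.mem_edgeSet] at h1
      rcases x with x | x
      · rcases y with y | y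
        · have h' : x ≠ y := h1
          cases x <;> cases y
          · exact absurd rfl h'
          · rfl
          · exact Sym2.eq_swap
          · exact absurd rfl h'
        · exact absurd (double_isLeaf 1 17 y) (h2 _ (Sym2.mem_mk_right _ _))
      · exact absurd (double_isLeaf 1 17 x) (h2 _ (Sym2.mem_mk_left _ _))
    · intro h
      rw [h]
      refine ⟨double_adj_cen 1 17, ?_⟩
      intro v hv
      rw [Sym2.mem_iff] at hv
      rcases hv with rfl | rfl
      · exact double_not_isLeaf _
      · exact double_not_isLeaf _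

lemma double_p3 : p3Count (doubleStar 1 17) = 0 := by
  unfold p3Count
  have : {c : (doubleStar 1 17).ConnectedComponent |
      Nonempty (c.toSimpleGraph ≃g SimpleGraph.pathGraph 3)} = ∅ := by
    ext c
    simp only [Set.mem_empty_iff_false, iff_false]
    exact no_component _ (double_preconnected 1 17) 3 (by simp) c
  rw [this, Set.ncard_empty]

lemma double_edges : (doubleStar 1 17).edgeSet.ncard = 19 := by
  rw [ncard_edges _ (dsPres 1 17).ends (dsPres 1 17).ends_inj (dsPres 1 17).ends_range]
  simp

theorem double_beta : beta (doubleStar 1 17) = 41 := by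
  unfold beta
  rw [double_edges, double_internal, double_p3]
  have hc : (Nat.card (Bool ⊕ (Fin 1 ⊕ Fin 17)) : ℝ) = 20 := by
    rw [Nat.card_eq_fintype_card]
    simp
  rw [hc]
  have h1 : (1.4 : ℝ) ≤ √2 := by
    apply Real.le_sqrt_of_sq_le
    norm_num
  have h2 : √2 ≤ (1.42 : ℝ) := by
    rw [Real.sqrt_le_left (by norm_num)]
    norm_num
  rw [Int.floor_eq_iff]
  constructor
  · rw [le_min_iff]
    constructor
    · push_cast
      nlinarith
    · push_cast
      norm_num
  · refine lt_of_le_of_lt (min_le_left _ _) ?_
    push_cast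
    nlinarith

theorem double_tauSet : ∀ t ∈ tauSet (doubleStar 1 17), t ≤ 40 := by
  intro t ht
  by_contra hcon
  push Not at hcon
  exact not_double 17 41 101 rfl (by norm_num) (ht 41 (by omega))

theorem double_tau : tau (doubleStar 1 17) < (beta (doubleStar 1 17) : WithBot ℤ) := by
  rw [double_beta]
  unfold tau
  split_ifs with h
  · have h1 : sSup (tauSet (doubleStar 1 17)) ≤ 40 := by
      rcases (tauSet (doubleStar 1 17)).eq_empty_or_nonempty with h2 | h2
      · rw [h2]
        simp
      · exact csSup_le h2 double_tauSet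
    rw [WithBot.coe_lt_coe]
    omega
  · exact WithBot.bot_lt_coe _

/-- The double star `S_{1,17}` itself is antimagic. -/
theorem double_antimagic : IsAntimagic (doubleStar 1 17) := by
  classical
  rw [(dsPres 1 17).antimagic_iff]
  refine ⟨Sum.elim (Sum.elim (fun _ => 1) fun j => (j : ℕ) + 2) fun _ => 19, ?_, ?_⟩
  · have hc : Fintype.card (Fin 1 ⊕ Fin 17) + Fintype.card Unit = 19 := by simp
    rw [hc]
    refine ⟨?_, ?_, ?_⟩
    · rintro ((i | j) | k) -
      · exact ⟨le_refl 1, by norm_num⟩
      · have := j.2
        refine ⟨?_, ?_⟩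
        · change 1 ≤ (j : ℕ) + 2
          omega
        · change (j : ℕ) + 2 ≤ 19
          omega
      · exact ⟨by norm_num, le_refl 19⟩
    · rintro ((i | j) | k) - ((i' | j') | k') - h
      · rw [Subsingleton.elim i i']
      · change 1 = (j' : ℕ) + 2 at h
        omega
      · change 1 = 19 at h
        omega
      · change (j : ℕ) + 2 = 1 at h
        omega
      · change (j : ℕ) + 2 = (j' : ℕ) + 2 at h
        have : j = j' := Fin.ext (by omega)
        rw [this]
      · change (j : ℕ) + 2 = 19 at h
        have := j.2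
        omega
      · change 19 = 1 at h
        omega
      · change 19 = (j' : ℕ) + 2 at h
        have := j'.2
        omega
      · rfl
    · rintro y ⟨h1, h2⟩
      rcases Nat.lt_or_ge y 2 with h | h
      · refine ⟨Sum.inl (Sum.inl 0), Set.mem_univ _, ?_⟩
        change 1 = y
        omega
      · rcases Nat.lt_or_ge y 19 with h' | h'
        · refine ⟨Sum.inl (Sum.inr ⟨y - 2, by omega⟩), Set.mem_univ _, ?_⟩
          change y - 2 + 2 = y
          omega
        · refine ⟨Sum.inr (), Set.mem_univ _, ?_⟩
          change 19 = y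
          omega
  · set g : (Fin 1 ⊕ Fin 17) ⊕ Unit → ℕ :=
      Sum.elim (Sum.elim (fun _ => 1) fun j => (j : ℕ) + 2) fun _ => 19 with hg
    have h0 : (dsPres 1 17).vs g (Sum.inr false) = 20 := by
      rw [(dsPres 1 17).vs_cen false {Sum.inl 0} {()} ?_ ?_ g, sum_singleton, sum_singleton]
      · rfl
      · intro l
        rw [mem_singleton]
        rcases l with l | l
        · have : l = 0 := Subsingleton.elim _ _
          subst this
          simp [dsPres]
        · simp [dsPres]
      · intro k
        simp [dsPres]
    have h1 : (dsPres 1 17).vs g (Sum.inr true) = 189 := by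
      rw [(dsPres 1 17).vs_cen true (univ.map ⟨Sum.inr, Sum.inr_injective⟩) {()} ?_ ?_ g,
        sum_singleton, sum_map]
      · decide
      · intro l
        rcases l with l | l
        · simp [dsPres]
        · simp [dsPres]
      · intro k
        simp [dsPres]
    have h2 : ∀ l, (dsPres 1 17).vs g (Sum.inl l) ≤ 18 := by
      rintro (l | l)
      · change 1 ≤ 18
        omega
      · have := l.2
        change (l : ℕ) + 2 ≤ 18
        omega
    have h3 : ∀ l l', (dsPres 1 17).vs g (Sum.inl l) = (dsPres 1 17).vs g (Sum.inl l') →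
        l = l' := by
      rintro (l | l) (l' | l') h
      · rw [Subsingleton.elim l l']
      · change 1 = (l' : ℕ) + 2 at h
        omega
      · change (l : ℕ) + 2 = 1 at h
        omega
      · change (l : ℕ) + 2 = (l' : ℕ) + 2 at h
        have : l = l' := Fin.ext (by omega)
        rw [this]
    rintro (l | c) (l' | c') h
    · rw [h3 l l' h]
    · have := h2 l
      cases c' <;> omega
    · have := h2 l'
      cases c <;> omega
    · cases c <;> cases c'
      · rfl
      · omega
      · omega
      · rfl

end Q122.Anti
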