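import Pool.Agent.Q122.Anti.Pres

set_option autoImplicit false

/-!
# Star forests: criterion and counting bounds
-/

namespace Q122.Anti

open Finset

/-- The sum of `S.card` distinct naturals which are at least `a`. -/
lemma sum_ge (a : ℕ) (n : ℕ) : ∀ S : Finset ℕ, S.card = n → (∀ x ∈ S, a ≤ x) →
    n * (2 * a + n) ≤ 2 * ∑ x ∈ S, x + n := by
  induction n with
  | zero => intro S _ _; simp
  | succ n ih =>
    intro S hS ha
    have hne : S.Nonempty := by
      rw [← card_pos, hS]
      omega
    set b := S.max' hne with hb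
    have hbS : b ∈ S := S.max'_mem hne
    have h1 : (S.erase b).card = n := by
      rw [card_erase_of_mem hbS, hS]
      rfl
    have h2 := ih (S.erase b) h1 fun x hx => ha x (mem_of_mem_erase hx)
    have h3 : ∑ x ∈ S, x = ∑ x ∈ S.erase b, x + b := (sum_erase_add _ _ hbS).symm
    have h4 : a + n ≤ b := by
      have h5 : S ⊆ Icc a b := by
        intro x hx
        rw [mem_Icc]
        exact ⟨ha x hx, S.le_max' x hx⟩
      have h6 := card_le_card h5
      rw [hS, Nat.card_Icc] at h6
      omega
    rw [h3]
    nlinarith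

/-- The sum of the labels. -/
lemma sum_labels {E : Type} [Fintype E] (g : E → ℕ) (M : ℕ)
    (hg : Set.BijOn g Set.univ (Set.Icc 1 M)) : 2 * ∑ x, g x = M * (M + 1) := by
  classical
  have h1 : ∑ x, g x = ∑ i ∈ Icc 1 M, i := by
    refine sum_bij (fun x _ => g x) ?_ ?_ ?_ ?_
    · intro x _
      rw [mem_Icc]
      exact hg.mapsTo (Set.mem_univ x)
    · intro x _ y _ h
      exact hg.injOn (Set.mem_univ x) (Set.mem_univ y) h
    · intro i hi
      rw [mem_Icc] at hi
      obtain ⟨x, -, hx⟩ := hg.surjOn hi
      exact ⟨x, mem_univ x, hx⟩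
    · intro x _
      rfl
  rw [h1]
  have h2 : ∑ i ∈ Icc 1 M, i = ∑ i ∈ range (M + 1), i := by
    rw [range_eq_Ico]
    rw [sum_eq_sum_Ico_succ_bot (by omega)]
    rw [zero_add, zero_add]
    rfl
  have h3 := sum_range_id_mul_two (M + 1)
  rw [h2, mul_comm, h3, Nat.add_sub_cancel, mul_comm]

section

variable {V L C K : Type} [Fintype L] [Fintype K] [IsEmpty K] {G : SimpleGraph V}
  (P : Pres G L C K)

open Classical in
/-- sums at the centres -/
noncomputable def Pres.cs (g : L → ℕ) (c : C) : ℕ := ∑ l : L with P.att l = c, g l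

/-- Criterion for star forests. -/
theorem Pres.forest_iff (hatt : Function.Surjective P.att) : IsAntimagic G ↔
    ∃ g : L → ℕ, Set.BijOn g Set.univ (Set.Icc 1 (Fintype.card L)) ∧
      Function.Injective (P.cs g) ∧ ∀ c, Fintype.card L < P.cs g c := by
  classical
  rw [P.antimagic_iff]
  have hK : Fintype.card K = 0 := Fintype.card_eq_zero
  rw [hK, add_zero]
  have hvs : ∀ (g : L ⊕ K → ℕ) c, P.vs g (Sum.inr c) = P.cs (fun l => g (Sum.inl l)) c := by
    intro g c
    unfold Pres.vs Pres.cs
    simp
  constructor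
  · rintro ⟨g, hg, hi⟩
    have hg' : Set.BijOn (fun l => g (Sum.inl l)) Set.univ (Set.Icc 1 (Fintype.card L)) := by
      refine ⟨fun l _ => hg.mapsTo (Set.mem_univ _), ?_, ?_⟩
      · intro l _ l' _ h
        have := hg.injOn (Set.mem_univ _) (Set.mem_univ _) h
        rwa [Sum.inl.injEq] at this
      · intro i hi
        obtain ⟨x, -, hx⟩ := hg.surjOn hi
        rcases x with l | k
        · exact ⟨l, Set.mem_univ _, hx⟩
        · exact (IsEmpty.false k).elim
    refine ⟨fun l => g (Sum.inl l), hg', ?_, ?_⟩
    · intro c c' h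
      rw [← hvs, ← hvs] at h
      have := hi h
      rwa [Sum.inr.injEq] at this
    · intro c
      by_contra hcon
      push Not at hcon
      have h1 : 1 ≤ P.cs (fun l => g (Sum.inl l)) c := by
        obtain ⟨l, hl⟩ := hatt c
        have h2 : 1 ≤ g (Sum.inl l) := (hg'.mapsTo (Set.mem_univ l)).1
        have h3 : g (Sum.inl l) ≤ P.cs (fun l => g (Sum.inl l)) c := by
          unfold Pres.cs
          exact single_le_sum (f := fun l => g (Sum.inl l)) (fun _ _ => Nat.zero_le _)
            (mem_filter.2 ⟨mem_univ l, hl⟩)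
        omega
      obtain ⟨l, -, hl⟩ := hg'.surjOn (⟨h1, hcon⟩ :
        P.cs (fun l => g (Sum.inl l)) c ∈ Set.Icc 1 (Fintype.card L))
      have h4 : P.vs g (Sum.inl l) = P.vs g (Sum.inr c) := by
        rw [hvs, ← hl]
        rfl
      exact absurd (hi h4) (by simp)
  · rintro ⟨g, hg, hi, hM⟩
    refine ⟨Sum.elim g (fun _ => 0), ?_, ?_⟩
    · refine ⟨?_, ?_, ?_⟩
      · rintro (l | k) -
        · exact hg.mapsTo (Set.mem_univ _)
        · exact (IsEmpty.false k).elim
      · rintro (l | k) - (l' | k') - h
        · rw [hg.injOn (Set.mem_univ _) (Set.mem_univ _) h]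
        · exact (IsEmpty.false k').elim
        · exact (IsEmpty.false k).elim
        · exact (IsEmpty.false k).elim
      · intro i hi
        obtain ⟨l, -, hl⟩ := hg.surjOn hi
        exact ⟨Sum.inl l, Set.mem_univ _, hl⟩
    · rintro (l | c) (l' | c') h
      · rw [hg.injOn (Set.mem_univ _) (Set.mem_univ _) h]
      · rw [hvs] at h
        have h1 : g l = P.cs g c' := h
        have h2 := (hg.mapsTo (Set.mem_univ l)).2
        have h3 := hM c'
        omega
      · rw [hvs] at h
        have h1 : P.cs g c = g l' := h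
        have h2 := (hg.mapsTo (Set.mem_univ l')).2
        have h3 := hM c
        omega
      · rw [hvs, hvs] at h
        rw [hi h]

open Classical in
/-- The counting bound: exclude the centres in `D`. -/
theorem Pres.forest_bound [Fintype C] (hatt : Function.Surjective P.att) (hG : IsAntimagic G)
    (D : Finset C) (q m : ℕ) (hq : (univ \ D).card = q)
    (hm : (univ.filter fun l => P.att l ∈ D).card = m) :
    q * (2 * Fintype.card L + q + 1) + m * (m + 1) ≤ Fintype.card L * (Fintype.card L + 1) := by
  obtain ⟨g, hg, hi, hM⟩ := (P.forest_iff hatt).1 hG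
  set M := Fintype.card L with hMdef
  have h1 := sum_labels g M hg
  have h2 : ∑ l, g l = ∑ c ∈ univ \ D, P.cs g c + ∑ l with P.att l ∈ D, g l := by
    have h3 : ∑ l with P.att l ∉ D, g l = ∑ c ∈ univ \ D, P.cs g c := by
      rw [← sum_fiberwise_of_maps_to (s := univ.filter fun l => P.att l ∉ D) (t := univ \ D)
        (g := P.att) (fun l hl => by
          rw [mem_sdiff]
          exact ⟨mem_univ _, (mem_filter.1 hl).2⟩)]
      refine sum_congr rfl fun c hc => ?_
      unfold Pres.cs
      refine sum_congr ?_ fun _ _ => rfl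
      ext l
      simp only [mem_filter, mem_univ, true_and]
      constructor
      · rintro ⟨-, h⟩
        exact h
      · intro h
        exact ⟨by rw [h]; exact (mem_sdiff.1 hc).2, h⟩
    rw [← h3, add_comm, sum_filter_add_sum_filter_not]
  have h3 : q * (2 * (M + 1) + q) ≤ 2 * ∑ c ∈ univ \ D, P.cs g c + q := by
    have h4 := sum_ge (M + 1) q ((univ \ D).image (P.cs g)) (by rw [card_image_of_injective _ hi, hq])
      (by
        intro x hx
        obtain ⟨c, -, rfl⟩ := mem_image.1 hx
        exact hM c)
    rwa [sum_image hi.injOn] at h4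
  have h4 : m * (2 * 1 + m) ≤ 2 * ∑ l with P.att l ∈ D, g l + m := by
    have hinj : Function.Injective g := fun a b h => hg.injOn (Set.mem_univ _) (Set.mem_univ _) h
    have h5 := sum_ge 1 m ((univ.filter fun l => P.att l ∈ D).image g)
      (by rw [card_image_of_injective _ hinj, hm])
      (by
        intro x hx
        obtain ⟨l, -, rfl⟩ := mem_image.1 hx
        exact (hg.mapsTo (Set.mem_univ l)).1)
    rwa [sum_image hinj.injOn] at h5
  nlinarith

end

end Q122.Anti
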