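import Pool.Agent.Q122.Anti.Defs

set_option autoImplicit false

/-!
# Graphs presented by leaves, centres and internal edges
-/

namespace Q122.Anti

open Finset

/-- `G` has leaves indexed by `L`, attached to further vertices indexed by `C`, and some edges
(indexed by `K`) between the latter. -/
structure Pres {V : Type} (G : SimpleGraph V) (L C K : Type) where
  leaf : L → V
  cen : C → V
  att : L → C
  int : K → Sym2 C
  leaf_inj : Function.Injective leaf
  cen_inj : Function.Injective cen
  ne : ∀ l c, leaf l ≠ cen c
  cover : ∀ v, (∃ l, leaf l = v) ∨ ∃ c, cen c = v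
  int_inj : Function.Injective int
  edges : ∀ e, e ∈ G.edgeSet ↔ (∃ l, s(leaf l, cen (att l)) = e) ∨ ∃ k, (int k).map cen = e

section

variable {V L C K : Type} {G : SimpleGraph V} (P : Pres G L C K)

/-- the edges -/
def Pres.ends : L ⊕ K → Sym2 V :=
  Sum.elim (fun l => s(P.leaf l, P.cen (P.att l))) fun k => (P.int k).map P.cen

lemma Pres.leaf_mem (l : L) (x : L ⊕ K) : P.leaf l ∈ P.ends x ↔ x = Sum.inl l := by
  rcases x with l' | k
  · simp only [Pres.ends, Sum.elim_inl, Sym2.mem_iff, Sum.inl.injEq]
    constructor
    · rintro (h | h)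
      · exact (P.leaf_inj h).symm
      · exact absurd h (P.ne _ _)
    · rintro rfl
      exact Or.inl rfl
  · simp only [Pres.ends, Sum.elim_inr, Sym2.mem_map, reduceCtorEq, iff_false]
    rintro ⟨c, -, h⟩
    exact P.ne _ _ h.symm

lemma Pres.cen_mem (c : C) (x : L ⊕ K) :
    P.cen c ∈ P.ends x ↔ Sum.elim (fun l => P.att l = c) (fun k => c ∈ P.int k) x := by
  rcases x with l' | k
  · simp only [Pres.ends, Sum.elim_inl, Sym2.mem_iff]
    constructor
    · rintro (h | h)
      · exact absurd h.symm (P.ne _ _)
      · exact (P.cen_inj h).symm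
    · rintro rfl
      exact Or.inr rfl
  · simp only [Pres.ends, Sum.elim_inr, Sym2.mem_map]
    constructor
    · rintro ⟨c', h, hc⟩
      rwa [← P.cen_inj hc]
    · intro h
      exact ⟨c, h, rfl⟩

lemma Pres.ends_inj : Function.Injective P.ends := by
  rintro (l | k) (l' | k') h
  · have h1 : P.leaf l ∈ P.ends (Sum.inl l') := by
      rw [← h, P.leaf_mem]
    rw [P.leaf_mem] at h1
    exact h1.symm
  · have h1 : P.leaf l ∈ P.ends (Sum.inr k') := by
      rw [← h, P.leaf_mem]
    rw [P.leaf_mem] at h1
    exact h1.symm
  · have h1 : P.leaf l' ∈ P.ends (Sum.inr k) := by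
      rw [h, P.leaf_mem]
    rw [P.leaf_mem] at h1
    exact h1
  · have h1 : (P.int k).map P.cen = (P.int k').map P.cen := h
    rw [P.int_inj (Sym2.map.injective P.cen_inj h1)]

lemma Pres.ends_range : Set.range P.ends = G.edgeSet := by
  ext e
  rw [P.edges]
  constructor
  · rintro ⟨l | k, h⟩
    · exact Or.inl ⟨l, h⟩
    · exact Or.inr ⟨k, h⟩
  · rintro (⟨l, h⟩ | ⟨k, h⟩)
    · exact ⟨Sum.inl l, h⟩
    · exact ⟨Sum.inr k, h⟩

end

section

variable {V E : Type} [Fintype E] (G : SimpleGraph V) (ends : E → Sym2 V)

open Classical in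
lemma sum_incidence (hinj : Function.Injective ends) (hrange : Set.range ends = G.edgeSet)
    (f : Sym2 V → ℕ) (v : V) :
    ∑ᶠ e ∈ G.incidenceSet v, f e = ∑ x : E with v ∈ ends x, f (ends x) := by
  have h1 : G.incidenceSet v = ends '' {x | v ∈ ends x} := by
    ext e
    simp only [SimpleGraph.incidenceSet, Set.mem_ofPred_eq, Set.mem_image]
    constructor
    · rintro ⟨he, hv⟩
      rw [← hrange] at he
      obtain ⟨x, rfl⟩ := he
      exact ⟨x, hv, rfl⟩
    · rintro ⟨x, hx, rfl⟩
      refine ⟨?_, hx⟩
      rw [← hrange]
      exact ⟨x, rfl⟩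
  rw [h1, finsum_mem_image hinj.injOn, finsum_mem_def]
  rw [finsum_eq_sum_of_fintype, sum_filter]
  refine sum_congr rfl fun x _ => ?_
  by_cases hx : v ∈ ends x
  · rw [if_pos hx]
    exact Set.indicator_of_mem (s := {x | v ∈ ends x}) hx _
  · rw [if_neg hx]
    exact Set.indicator_of_notMem (s := {x | v ∈ ends x}) hx _

lemma ncard_edges (hinj : Function.Injective ends) (hrange : Set.range ends = G.edgeSet) :
    G.edgeSet.ncard = Fintype.card E := by
  rw [← hrange, ← Set.image_univ, Set.ncard_image_of_injective _ hinj, Set.ncard_univ,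
    Nat.card_eq_fintype_card]

open Classical in
lemma antimagic_iff (hinj : Function.Injective ends) (hrange : Set.range ends = G.edgeSet) :
    IsAntimagic G ↔ ∃ g : E → ℕ, Set.BijOn g Set.univ (Set.Icc 1 (Fintype.card E)) ∧
      Function.Injective fun v : V => ∑ x : E with v ∈ ends x, g x := by
  have hb : Set.BijOn ends Set.univ G.edgeSet := by
    rw [← hrange, ← Set.image_univ]
    exact hinj.injOn.bijOn_image
  constructor
  · rintro ⟨f, hf, hi⟩
    refine ⟨fun x => f (ends x), ?_, ?_⟩
    · rw [← ncard_edges G ends hinj hrange]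
      exact hf.comp hb
    · simp only [sum_incidence G ends hinj hrange] at hi
      exact hi
  · rintro ⟨g, hg, hi⟩
    rcases isEmpty_or_nonempty E with hE | hE
    · refine ⟨fun _ => 0, ?_, ?_⟩
      · rw [ncard_edges G ends hinj hrange, ← hrange]
        have h0 : Fintype.card E = 0 := Fintype.card_eq_zero
        rw [h0]
        simpa using hE
      · simp only [sum_incidence G ends hinj hrange]
        simpa using hi
    · refine ⟨fun e => g (Function.invFun ends e), ?_, ?_⟩
      · rw [ncard_edges G ends hinj hrange]
        have hinv : Set.BijOn (Function.invFun ends) G.edgeSet Set.univ := by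
          refine ⟨Set.mapsTo_univ _ _, ?_, ?_⟩
          · intro a ha b hb' hab
            rw [← hrange] at ha hb'
            obtain ⟨x, rfl⟩ := ha
            obtain ⟨y, rfl⟩ := hb'
            rw [Function.leftInverse_invFun hinj, Function.leftInverse_invFun hinj] at hab
            rw [hab]
          · intro x _
            refine ⟨ends x, ?_, Function.leftInverse_invFun hinj x⟩
            rw [← hrange]
            exact ⟨x, rfl⟩
        exact hg.comp hinv
      · simp only [sum_incidence G ends hinj hrange]
        have : ∀ v, (∑ x : E with v ∈ ends x, g (Function.invFun ends (ends x))) =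
            ∑ x : E with v ∈ ends x, g x := by
          intro v
          refine sum_congr rfl fun x _ => ?_
          rw [Function.leftInverse_invFun hinj]
        simp only [this]
        exact hi

end

section

variable {V L C K : Type} [Fintype L] [Fintype K] {G : SimpleGraph V}
  (P : Pres G L C K)

open Classical in
/-- the sums at the vertices -/
noncomputable def Pres.vs (g : L ⊕ K → ℕ) : L ⊕ C → ℕ :=
  Sum.elim (fun l => g (Sum.inl l)) fun c =>
    ∑ l : L with P.att l = c, g (Sum.inl l) + ∑ k : K with c ∈ P.int k, g (Sum.inr k)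

open Classical in
theorem Pres.antimagic_iff : IsAntimagic G ↔
    ∃ g : L ⊕ K → ℕ, Set.BijOn g Set.univ (Set.Icc 1 (Fintype.card L + Fintype.card K)) ∧
      Function.Injective (P.vs g) := by
  rw [Q122.Anti.antimagic_iff G P.ends P.ends_inj P.ends_range, Fintype.card_sum]
  refine exists_congr fun g => and_congr_right fun _ => ?_
  have hl : ∀ l, (∑ x : L ⊕ K with P.leaf l ∈ P.ends x, g x) = P.vs g (Sum.inl l) := by
    intro l
    have h1 : (univ.filter fun x : L ⊕ K => P.leaf l ∈ P.ends x) = {Sum.inl l} := by
      ext x
      rw [mem_filter, P.leaf_mem, mem_singleton]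
      simp
    rw [h1, sum_singleton]
    rfl
  have hc : ∀ c, (∑ x : L ⊕ K with P.cen c ∈ P.ends x, g x) = P.vs g (Sum.inr c) := by
    intro c
    simp only [P.cen_mem]
    rw [sum_filter, Fintype.sum_sum_type]
    simp only [Sum.elim_inl, Sum.elim_inr, Pres.vs]
    rw [sum_filter, sum_filter]
    congr 1
    refine sum_congr rfl fun k _ => ?_
    by_cases h : c ∈ P.int k
    · exact (if_pos h).trans (if_pos h).symm
    · exact (if_neg h).trans (if_neg h).symm
  constructor
  · intro hi x y hxy
    rcases x with l | c <;> rcases y with l' | c'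
    · rw [← hl, ← hl] at hxy
      rw [P.leaf_inj (hi hxy)]
    · rw [← hl, ← hc] at hxy
      exact absurd (hi hxy) (P.ne _ _)
    · rw [← hc, ← hl] at hxy
      exact absurd (hi hxy).symm (P.ne _ _)
    · rw [← hc, ← hc] at hxy
      rw [P.cen_inj (hi hxy)]
  · intro hi u v huv
    simp only at huv
    rcases P.cover u with ⟨l, rfl⟩ | ⟨c, rfl⟩ <;> rcases P.cover v with ⟨l', rfl⟩ | ⟨c', rfl⟩
    · rw [hl, hl] at huv
      have := hi huv
      rw [Sum.inl.injEq] at this
      rw [this]
    · rw [hl, hc] at huv
      exact absurd (hi huv) (by simp)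
    · rw [hc, hl] at huv
      exact absurd (hi huv) (by simp)
    · rw [hc, hc] at huv
      have := hi huv
      rw [Sum.inr.injEq] at this
      rw [this]

end

/-! ### Presentations -/

/-- the star -/
def star (n : ℕ) : SimpleGraph (Fin 1 ⊕ Fin n) := completeBipartiteGraph (Fin 1) (Fin n)

/-- presentation of the star -/
def starPres (n : ℕ) : Pres (star n) (Fin n) (Fin 1) Empty where
  leaf := Sum.inr
  cen := Sum.inl
  att _ := 0
  int k := k.elim
  leaf_inj := Sum.inr_injective
  cen_inj := Sum.inl_injective
  ne l c := by simp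
  cover v := by
    rcases v with v | v
    · exact Or.inr ⟨v, rfl⟩
    · exact Or.inl ⟨v, rfl⟩
  int_inj k := k.elim
  edges e := by
    induction e with
    | _ x y =>
      rw [SimpleGraph.mem_edgeSet]
      constructor
      · intro h
        left
        rcases x with x | x <;> rcases y with y | y
        · simp [star] at h
        · exact ⟨y, by rw [Subsingleton.elim x 0, Sym2.eq_swap]⟩
        · exact ⟨x, by rw [Subsingleton.elim y 0]⟩
        · simp [star] at h
      · rintro (⟨l, h⟩ | ⟨k, -⟩)
        · rw [Sym2.eq_iff] at h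
          rcases h with ⟨rfl, rfl⟩ | ⟨rfl, rfl⟩ <;> simp [star]
        · exact k.elim

/-- presentation of a disjoint union -/
def Pres.sum {V W L C K L' C' K' : Type} {G : SimpleGraph V} {H : SimpleGraph W}
    (P : Pres G L C K) (Q : Pres H L' C' K') :
    Pres (G ⊕g H) (L ⊕ L') (C ⊕ C') (K ⊕ K') where
  leaf := Sum.map P.leaf Q.leaf
  cen := Sum.map P.cen Q.cen
  att := Sum.map P.att Q.att
  int := Sum.elim (fun k => (P.int k).map Sum.inl) fun k => (Q.int k).map Sum.inr
  leaf_inj := P.leaf_inj.sumMap Q.leaf_inj
  cen_inj := P.cen_inj.sumMap Q.cen_inj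
  ne l c := by
    rcases l with l | l <;> rcases c with c | c
    · simpa using P.ne l c
    · simp
    · simp
    · simpa using Q.ne l c
  cover v := by
    rcases v with v | v
    · rcases P.cover v with ⟨l, rfl⟩ | ⟨c, rfl⟩
      · exact Or.inl ⟨Sum.inl l, rfl⟩
      · exact Or.inr ⟨Sum.inl c, rfl⟩
    · rcases Q.cover v with ⟨l, rfl⟩ | ⟨c, rfl⟩
      · exact Or.inl ⟨Sum.inr l, rfl⟩
      · exact Or.inr ⟨Sum.inr c, rfl⟩
  int_inj := by
    rintro (k | k) (k' | k') h
    · simp only [Sum.elim_inl] at h
      rw [P.int_inj (Sym2.map.injective Sum.inl_injective h)]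
    · simp only [Sum.elim_inl, Sum.elim_inr] at h
      exfalso
      generalize P.int k = a at h
      generalize Q.int k' = b at h
      induction a with
      | _ x y =>
        induction b with
        | _ z w =>
          simp at h
    · simp only [Sum.elim_inl, Sum.elim_inr] at h
      exfalso
      generalize Q.int k = a at h
      generalize P.int k' = b at h
      induction a with
      | _ x y =>
        induction b with
        | _ z w =>
          simp at h
    · simp only [Sum.elim_inr] at h
      rw [Q.int_inj (Sym2.map.injective Sum.inr_injective h)]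
  edges e := by
    constructor
    · intro he
      induction e with
      | _ x y =>
        rw [SimpleGraph.mem_edgeSet] at he
        rcases x with x | x <;> rcases y with y | y
        · have h1 : s(x, y) ∈ G.edgeSet := by
            rw [SimpleGraph.mem_edgeSet]
            simpa using he
          rcases (P.edges _).1 h1 with ⟨l, hl⟩ | ⟨k, hk⟩
          · left
            refine ⟨Sum.inl l, ?_⟩
            have := congrArg (Sym2.map (Sum.inl : V → V ⊕ W)) hl
            simpa using this
          · right
            refine ⟨Sum.inl k, ?_⟩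
            have := congrArg (Sym2.map (Sum.inl : V → V ⊕ W)) hk
            simp only [Sum.elim_inl, Sym2.map_map] at this ⊢
            exact this
        · simp at he
        · simp at he
        · have h1 : s(x, y) ∈ H.edgeSet := by
            rw [SimpleGraph.mem_edgeSet]
            simpa using he
          rcases (Q.edges _).1 h1 with ⟨l, hl⟩ | ⟨k, hk⟩
          · left
            refine ⟨Sum.inr l, ?_⟩
            have := congrArg (Sym2.map (Sum.inr : W → V ⊕ W)) hl
            simpa using this
          · right
            refine ⟨Sum.inr k, ?_⟩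
            have := congrArg (Sym2.map (Sum.inr : W → V ⊕ W)) hk
            simp only [Sum.elim_inr, Sym2.map_map] at this ⊢
            exact this
    · rintro (⟨l, rfl⟩ | ⟨k, rfl⟩)
      · rcases l with l | l
        · have h1 : s(P.leaf l, P.cen (P.att l)) ∈ G.edgeSet := (P.edges _).2 (Or.inl ⟨l, rfl⟩)
          rw [SimpleGraph.mem_edgeSet] at h1
          simpa using h1
        · have h1 : s(Q.leaf l, Q.cen (Q.att l)) ∈ H.edgeSet := (Q.edges _).2 (Or.inl ⟨l, rfl⟩)
          rw [SimpleGraph.mem_edgeSet] at h1
          simpa using h1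
      · rcases k with k | k
        · have h1 : (P.int k).map P.cen ∈ G.edgeSet := (P.edges _).2 (Or.inr ⟨k, rfl⟩)
          simp only [Sum.elim_inl, Sym2.map_map]
          generalize P.int k = a at h1
          induction a with
          | _ x y => simpa using h1
        · have h1 : (Q.int k).map Q.cen ∈ H.edgeSet := (Q.edges _).2 (Or.inr ⟨k, rfl⟩)
          simp only [Sum.elim_inr, Sym2.map_map]
          generalize Q.int k = a at h1
          induction a with
          | _ x y => simpa using h1

/-- presentation of `tP₃` -/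
def copiesPres (t : ℕ) :
    Pres (copies t (SimpleGraph.pathGraph 3)) (Fin t × Bool) (Fin t) Empty where
  leaf p := (p.1, cond p.2 0 2)
  cen i := (i, 1)
  att p := p.1
  int k := k.elim
  leaf_inj := by
    rintro ⟨i, a⟩ ⟨j, b⟩ h
    simp only [Prod.mk.injEq] at h ⊢
    refine ⟨h.1, ?_⟩
    revert h
    cases a <;> cases b <;> simp
  cen_inj i j h := by simpa using h
  ne l c := by
    rcases l with ⟨i, a⟩
    cases a <;> simp
  cover v := by
    rcases v with ⟨i, a⟩
    fin_cases a
    · exact Or.inl ⟨(i, true), rfl⟩
    · exact Or.inr ⟨i, rfl⟩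
    · exact Or.inl ⟨(i, false), rfl⟩
  int_inj k := k.elim
  edges e := by
    induction e with
    | _ x y =>
      rw [SimpleGraph.mem_edgeSet]
      rcases x with ⟨i, a⟩
      rcases y with ⟨j, b⟩
      constructor
      · rintro ⟨h1, h2⟩
        simp only at h1 h2
        subst h1
        left
        rw [SimpleGraph.pathGraph_adj] at h2
        fin_cases a <;> fin_cases b <;> simp at h2
        · exact ⟨(i, true), rfl⟩
        · exact ⟨(i, true), Sym2.eq_swap⟩
        · exact ⟨(i, false), Sym2.eq_swap⟩
        · exact ⟨(i, false), rfl⟩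
      · rintro (⟨⟨l, c⟩, h⟩ | ⟨k, -⟩)
        · rw [Sym2.eq_iff] at h
          simp only [Prod.mk.injEq] at h
          rcases h with ⟨⟨rfl, rfl⟩, rfl, rfl⟩ | ⟨⟨rfl, rfl⟩, rfl, rfl⟩
          · refine ⟨rfl, ?_⟩
            rw [SimpleGraph.pathGraph_adj]
            cases c <;> simp
          · refine ⟨rfl, ?_⟩
            rw [SimpleGraph.pathGraph_adj]
            cases c <;> simp
        · exact k.elim

end Q122.Anti
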