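import Pool.Agent.Q122.Anti.Construct

set_option autoImplicit false

/-!
# The parameter `τ` for stars: upper bounds and small facts
-/

namespace Q122.Anti

open Finset

/-- The counting bound: exclude the centres in `D`, which have the leaves in `EL`. -/
theorem Pres.forest_bound' {V L C K : Type} [Fintype L] [Fintype K] [IsEmpty K]
    {G : SimpleGraph V} (P : Pres G L C K) [Fintype C] (hatt : Function.Surjective P.att)
    (hG : IsAntimagic G) (D : Finset C) (EL : Finset L) (hEL : ∀ l, l ∈ EL ↔ P.att l ∈ D) (q : ℕ)
    (hq : Fintype.card C = q + D.card) :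
    q * (2 * Fintype.card L + q + 1) + EL.card * (EL.card + 1) ≤
      Fintype.card L * (Fintype.card L + 1) := by
  classical
  refine P.forest_bound hatt hG D q EL.card ?_ ?_
  · rw [card_sdiff_of_subset (subset_univ _), card_univ]
    omega
  · congr 1
    ext l
    rw [mem_filter, hEL]
    simp

lemma not_star (n t : ℕ) (hn : 0 < n)
    (h : (n + 2 * t) * (n + 2 * t + 1) < (t + 1) * (2 * (n + 2 * t) + t + 2)) :
    ¬ IsAntimagic (addP3 (star n) t) := by
  classical
  intro hG
  set P := (starPres n).sum (copiesPres t) with hP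
  have hatt : Function.Surjective P.att := att_sum _ _ (att_star hn) (att_copies t)
  have hcard : Fintype.card (Fin n ⊕ Fin t × Bool) = n + 2 * t := by
    simp
    ring
  have hb := P.forest_bound hatt hG ∅ (t + 1) 0 (by simp; ring) (by simp)
  rw [hcard] at hb
  have h2 : (t + 1) * (2 * (n + 2 * t) + (t + 1) + 1) + 0 * (0 + 1) =
      (t + 1) * (2 * (n + 2 * t) + t + 2) := by ring
  omega

lemma not_star' (n t : ℕ) (hn : 0 < n)
    (h : (n + 2 * t) * (n + 2 * t + 1) < t * (2 * (n + 2 * t) + t + 1) + n * (n + 1)) :
    ¬ IsAntimagic (addP3 (star n) t) := by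
  classical
  intro hG
  set P := (starPres n).sum (copiesPres t) with hP
  have hatt : Function.Surjective P.att := att_sum _ _ (att_star hn) (att_copies t)
  have hcard : Fintype.card (Fin n ⊕ Fin t × Bool) = n + 2 * t := by
    simp
    ring
  have hb := P.forest_bound' hatt hG {Sum.inl 0}
    ((univ : Finset (Fin n)).map ⟨Sum.inl, Sum.inl_injective⟩) (by
      rintro (l | l)
      · simp only [mem_map, mem_univ, true_and, Function.Embedding.coeFn_mk, Sum.inl.injEq,
          exists_eq, mem_singleton, true_iff]
        show Sum.inl ((starPres n).att l) = Sum.inl 0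
        rw [Subsingleton.elim ((starPres n).att l) 0]
      · simp only [mem_map, mem_univ, true_and, Function.Embedding.coeFn_mk, reduceCtorEq,
          exists_false, mem_singleton, false_iff]
        show ¬ Sum.inr ((copiesPres t).att l) = Sum.inl 0
        simp) t (by
      rw [Fintype.card_sum, card_singleton]
      simp
      ring)
  rw [card_map, card_univ, Fintype.card_fin] at hb
  rw [hcard] at hb
  omega

lemma not_union (a b t : ℕ) (ha : 0 < a) (hb : 0 < b)
    (h : (a + b + 2 * t) * (a + b + 2 * t + 1) < (t + 2) * (2 * (a + b + 2 * t) + t + 3)) :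
    ¬ IsAntimagic (addP3 (star a ⊕g star b) t) := by
  classical
  intro hG
  set P := ((starPres a).sum (starPres b)).sum (copiesPres t) with hP
  have hatt : Function.Surjective P.att :=
    att_sum _ _ (att_sum _ _ (att_star ha) (att_star hb)) (att_copies t)
  have hcard : Fintype.card ((Fin a ⊕ Fin b) ⊕ Fin t × Bool) = a + b + 2 * t := by
    simp
    ring
  have hb := P.forest_bound hatt hG ∅ (t + 2) 0 (by simp; ring) (by simp)
  rw [hcard] at hb
  have h2 : (t + 2) * (2 * (a + b + 2 * t) + (t + 2) + 1) + 0 * (0 + 1) =
      (t + 2) * (2 * (a + b + 2 * t) + t + 3) := by ring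
  omega

lemma star_antimagic {n : ℕ} (hn : 2 ≤ n) : IsAntimagic (star n) := by
  refine ((starPres n).forest_iff (att_star (by omega))).2 ⟨fun j => (j : ℕ) + 1, ?_, ?_, ?_⟩
  · refine bijOn_of_inj _ (fun i j h => Fin.ext (by simpa using h)) fun j => ?_
    have := j.2
    rw [Fintype.card_fin]
    omega
  · intro c c' _
    exact Subsingleton.elim _ _
  · intro c
    rw [cs_star, Fintype.card_fin]
    have h1 : ∑ j : Fin n, ((j : ℕ) + 1) = ∑ j ∈ range n, (j + 1) :=
      Fin.sum_univ_eq_sum_range (fun j => j + 1) n
    rw [h1, sum_add_distrib, sum_const, card_range, smul_eq_mul, mul_one]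
    have h2 := sum_range_id_mul_two n
    have h3 : 0 < n * (n - 1) := Nat.mul_pos (by omega) (by omega)
    omega

lemma union_antimagic : IsAntimagic (star 6 ⊕g star 17) := by
  set P := (starPres 6).sum (starPres 17) with hP
  refine (P.forest_iff (att_sum _ _ (att_star (by omega)) (att_star (by omega)))).2
    ⟨Sum.elim (fun j => (j : ℕ) + 18) (fun j => (j : ℕ) + 1), ?_, ?_, ?_⟩
  · refine bijOn_of_inj _ ?_ ?_
    · rintro (i | i) (j | j) h
      · simp only [Sum.elim_inl, Nat.add_right_cancel_iff] at h
        rw [Fin.ext h]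
      · have := j.2
        simp only [Sum.elim_inl, Sum.elim_inr] at h
        omega
      · have := i.2
        simp only [Sum.elim_inl, Sum.elim_inr] at h
        omega
      · simp only [Sum.elim_inr, Nat.add_right_cancel_iff] at h
        rw [Fin.ext h]
    · rintro (i | i)
      · have := i.2
        simp only [Sum.elim_inl, Fintype.card_sum, Fintype.card_fin]
        omega
      · have := i.2
        simp only [Sum.elim_inr, Fintype.card_sum, Fintype.card_fin]
        omega
  · rintro (c | c) (c' | c') h
    · rw [Subsingleton.elim c c']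
    · rw [hP, cs_sum_inl, cs_sum_inr, cs_star, cs_star] at h
      exact absurd h (by decide)
    · rw [hP, cs_sum_inl, cs_sum_inr, cs_star, cs_star] at h
      exact absurd h (by decide)
    · rw [Subsingleton.elim c c']
  · rintro (c | c)
    · rw [hP, cs_sum_inl, cs_star]
      decide
    · rw [hP, cs_sum_inr, cs_star]
      decide

lemma isGreatest_tauSet {V : Type} {G : SimpleGraph V} {a : ℕ}
    (h1 : ∀ t ≤ a, IsAntimagic (addP3 G t)) (h2 : ¬ IsAntimagic (addP3 G (a + 1))) :
    IsGreatest (tauSet G) a := by
  refine ⟨h1, fun t ht => ?_⟩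
  by_contra hcon
  push Not at hcon
  exact h2 (ht (a + 1) hcon)

end Q122.Anti
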